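import Pool.Agent.H306R2.RZ.Defs2

set_option autoImplicit false

/-! Project RZ, task MR5: the Sobolev inequality in the main range. -/

namespace Pool.Agent.H208R2.RZ2

open Finset Filter Topology MeasureTheory
open Pool.Agent.H306R2.RZ

noncomputable section

/-- the majorant in `v` -/
def Hv (v : ℝ) : ℝ := Real.exp (-(Real.pi / 2 * v)) * (v ^ (-(5 / 8) : ℝ) + v ^ (-(7 / 8) : ℝ))

lemma Hv_int : IntegrableOn Hv (Set.Ioi 0) := by
  have h1 := integrableOn_rpow_mul_exp_neg_mul_rpow (p := 1) (s := -(5 / 8)) (b := Real.pi / 2)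
    (by norm_num) (by norm_num) (by positivity)
  have h2 := integrableOn_rpow_mul_exp_neg_mul_rpow (p := 1) (s := -(7 / 8)) (b := Real.pi / 2)
    (by norm_num) (by norm_num) (by positivity)
  refine (h1.add h2).congr_fun ?_ measurableSet_Ioi
  intro v _
  simp only [Hv, Pi.add_apply, Real.rpow_one]
  rw [show -(Real.pi / 2) * v = -(Real.pi / 2 * v) by ring]
  ring

lemma Hv_nonneg {v : ℝ} (hv : 0 < v) : 0 ≤ Hv v := by
  unfold Hv; positivity

/-- families of weights -/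
structure Fam (δ X M : ℝ) (P : ℝ → ℝ → ℝ) : Prop where
  meas : ∀ x, Measurable (P x)
  zero : ∀ x τ, τ ≤ -δ → P x τ = 0
  bound : ∀ x τ, |x| ≤ X → |P x τ| ≤ M * Real.exp ((X + 1 / 4) * |τ|)
  cont : ∀ τ, Continuous (fun x => P x τ)

/-- the majorant in `n` -/
def un (a : ℝ) (n : ℕ) : ℝ := ((n : ℝ) + 1) * Real.exp (-(a * ((n : ℝ) + 1) ^ 2))

lemma un_nonneg (a : ℝ) (n : ℕ) : 0 ≤ un a n := by unfold un; positivity

lemma un_summable {a : ℝ} (ha : 0 < a) : Summable (un a) := by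
  have h1 := Real.summable_pow_mul_exp_neg_nat_mul 1 ha
  have h2 := (summable_nat_add_iff 1).2 h1
  refine Summable.of_nonneg_of_le (un_nonneg a) (fun n => ?_) h2
  unfold un
  push_cast
  rw [pow_one]
  refine mul_le_mul_of_nonneg_left ?_ (by positivity)
  rw [Real.exp_le_exp]
  have h3 : (0 : ℝ) ≤ n := Nat.cast_nonneg n
  nlinarith [mul_nonneg ha.le (mul_nonneg h3 (by linarith : (0 : ℝ) ≤ (n : ℝ) + 1))]

lemma exp_abs_log {z : ℝ} (hz : 0 < z) :
    Real.exp (|Real.log z| / 8) ≤ z ^ (1 / 8 : ℝ) + z ^ (-(1 / 8) : ℝ) := by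
  have e1 : z ^ (1 / 8 : ℝ) = Real.exp (Real.log z / 8) := by
    rw [Real.rpow_def_of_pos hz]; congr 1; ring
  have e2 : z ^ (-(1 / 8) : ℝ) = Real.exp (-Real.log z / 8) := by
    rw [Real.rpow_def_of_pos hz]; congr 1; ring
  rw [e1, e2]
  rcases abs_cases (Real.log z) with ⟨h, _⟩ | ⟨h, _⟩
  · rw [h]; linarith [Real.exp_pos (-Real.log z / 8)]
  · rw [h]; linarith [Real.exp_pos (Real.log z / 8)]

lemma rpow8 {v : ℝ} (hv : 0 < v) :
    v ^ (-(3 / 4) : ℝ) * Real.exp (|Real.log (8 * v)| / 8) ≤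
      2 * (v ^ (-(5 / 8) : ℝ) + v ^ (-(7 / 8) : ℝ)) := by
  have h1 := exp_abs_log (z := 8 * v) (by positivity)
  have h2 : (8 * v) ^ (1 / 8 : ℝ) = 8 ^ (1 / 8 : ℝ) * v ^ (1 / 8 : ℝ) :=
    Real.mul_rpow (by norm_num) hv.le
  have h3 : (8 * v) ^ (-(1 / 8) : ℝ) = 8 ^ (-(1 / 8) : ℝ) * v ^ (-(1 / 8) : ℝ) :=
    Real.mul_rpow (by norm_num) hv.le
  have h4 : (8 : ℝ) ^ (1 / 8 : ℝ) ≤ 2 := by
    have : (8 : ℝ) ^ (1 / 8 : ℝ) ≤ (2 ^ (8 : ℝ)) ^ (1 / 8 : ℝ) := by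
      apply Real.rpow_le_rpow (by norm_num) _ (by norm_num)
      norm_num
    rw [← Real.rpow_mul (by norm_num)] at this
    norm_num at this ⊢
    exact this
  have h5 : (8 : ℝ) ^ (-(1 / 8) : ℝ) ≤ 2 := by
    have : (8 : ℝ) ^ (-(1 / 8) : ℝ) ≤ 1 := Real.rpow_le_one_of_one_le_of_nonpos (by norm_num) (by norm_num)
    linarith
  have h6 : v ^ (-(3 / 4) : ℝ) * v ^ (1 / 8 : ℝ) = v ^ (-(5 / 8) : ℝ) := by
    rw [← Real.rpow_add hv]; norm_num
  have h7 : v ^ (-(3 / 4) : ℝ) * v ^ (-(1 / 8) : ℝ) = v ^ (-(7 / 8) : ℝ) := by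
    rw [← Real.rpow_add hv]; norm_num
  have p1 : 0 < v ^ (1 / 8 : ℝ) := Real.rpow_pos_of_pos hv _
  have p2 : 0 < v ^ (-(1 / 8) : ℝ) := Real.rpow_pos_of_pos hv _
  have p3 : 0 < v ^ (-(3 / 4) : ℝ) := Real.rpow_pos_of_pos hv _
  calc v ^ (-(3 / 4) : ℝ) * Real.exp (|Real.log (8 * v)| / 8)
      ≤ v ^ (-(3 / 4) : ℝ) * (2 * v ^ (1 / 8 : ℝ) + 2 * v ^ (-(1 / 8) : ℝ)) := by
        refine mul_le_mul_of_nonneg_left (h1.trans ?_) p3.le
        rw [h2, h3]
        exact add_le_add (mul_le_mul_of_nonneg_right h4 p1.le) (mul_le_mul_of_nonneg_right h5 p2.le)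
    _ = 2 * (v ^ (-(3 / 4) : ℝ) * v ^ (1 / 8 : ℝ) + v ^ (-(3 / 4) : ℝ) * v ^ (-(1 / 8) : ℝ)) := by ring
    _ = _ := by rw [h6, h7]

/-- the integrand of `KW` -/
def ig (L β : ℝ) (P : ℝ → ℝ) (n : ℕ) (v : ℝ) : ℝ :=
  Real.exp (-(Real.pi * v)) * v ^ (-(3 / 4) : ℝ) * P (TV L β v - Real.log ((n : ℝ) + 1) / L)

/-- decay rate -/
def aa (L β δ : ℝ) : ℝ := Real.pi * Real.exp (-(2 * L * (δ + 1 / 2 + β))) / 16

lemma aa_pos (L β δ : ℝ) : 0 < aa L β δ := by unfold aa; positivity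

lemma key {δ X M : ℝ} {P : ℝ → ℝ → ℝ} (hP : Fam δ X M P) (hX : 0 ≤ X) (hM : 0 ≤ M) {L : ℝ}
    (hL : 4 * X + 1 ≤ L) (β : ℝ) {x : ℝ} (hx : |x| ≤ X) (n : ℕ) {v : ℝ} (hv : 0 < v) :
    ‖ig L β (P x) n v‖ ≤
      (2 * M * Real.exp ((X + 1 / 4) * |1 / 2 + β|) * Hv v) * un (aa L β δ) n := by
  have hL0 : 0 < L := by linarith
  have hn1 : (0 : ℝ) < (n : ℝ) + 1 := by positivity
  have hn1' : (1 : ℝ) ≤ (n : ℝ) + 1 := by linarith [(Nat.cast_nonneg n : (0 : ℝ) ≤ n)]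
  set τ := TV L β v - Real.log ((n : ℝ) + 1) / L with hτ
  have hH := Hv_nonneg hv
  have hu := un_nonneg (aa L β δ) n
  by_cases hz : τ ≤ -δ
  · unfold ig
    rw [← hτ, hP.zero x τ hz, mul_zero, norm_zero]
    positivity
  push Not at hz
  have hlogn : 0 ≤ Real.log ((n : ℝ) + 1) := Real.log_nonneg hn1'
  -- the lower bound for v
  have h1 : 2 * Real.log ((n : ℝ) + 1) + -(2 * L * (δ + 1 / 2 + β)) ≤ Real.log (8 * v) := by
    rw [hτ] at hz
    unfold TV at hz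
    have h2 : -δ * (2 * L) < (1 / 2 + β + Real.log (8 * v) / (2 * L) -
        Real.log ((n : ℝ) + 1) / L) * (2 * L) :=
      mul_lt_mul_of_pos_right hz (by positivity)
    have h3 : (1 / 2 + β + Real.log (8 * v) / (2 * L) - Real.log ((n : ℝ) + 1) / L) * (2 * L) =
        (1 / 2 + β) * (2 * L) + Real.log (8 * v) - 2 * Real.log ((n : ℝ) + 1) := by
      field_simp
    rw [h3] at h2
    nlinarith
  have h2 : ((n : ℝ) + 1) ^ 2 * Real.exp (-(2 * L * (δ + 1 / 2 + β))) ≤ 8 * v := by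
    have h3 := Real.exp_le_exp.2 h1
    rw [Real.exp_log (by positivity), Real.exp_add] at h3
    have h4 : Real.exp (2 * Real.log ((n : ℝ) + 1)) = ((n : ℝ) + 1) ^ 2 := by
      rw [show 2 * Real.log ((n : ℝ) + 1) = Real.log (((n : ℝ) + 1) ^ 2) by
        rw [Real.log_pow]; norm_num, Real.exp_log (by positivity)]
    rwa [h4] at h3
  have hexp : Real.exp (-(Real.pi * v)) ≤
      Real.exp (-(Real.pi / 2 * v)) * Real.exp (-(aa L β δ * ((n : ℝ) + 1) ^ 2)) := by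
    rw [← Real.exp_add, Real.exp_le_exp]
    unfold aa
    have := mul_le_mul_of_nonneg_left h2 Real.pi_pos.le
    nlinarith
  -- the bound for the weight
  have hPb : |P x τ| ≤ M * (Real.exp ((X + 1 / 4) * |1 / 2 + β|) *
      Real.exp (|Real.log (8 * v)| / 8) * ((n : ℝ) + 1)) := by
    refine (hP.bound x τ hx).trans (mul_le_mul_of_nonneg_left ?_ hM)
    have h3 : (X + 1 / 4) * |τ| ≤ (X + 1 / 4) * |1 / 2 + β| + |Real.log (8 * v)| / 8 +
        Real.log ((n : ℝ) + 1) := by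
      have h4 : |τ| ≤ |1 / 2 + β| + |Real.log (8 * v)| / (2 * L) + Real.log ((n : ℝ) + 1) / L := by
        rw [hτ]
        unfold TV
        calc |1 / 2 + β + Real.log (8 * v) / (2 * L) - Real.log ((n : ℝ) + 1) / L|
            ≤ |1 / 2 + β + Real.log (8 * v) / (2 * L)| + |Real.log ((n : ℝ) + 1) / L| := abs_sub _ _
          _ ≤ |1 / 2 + β| + |Real.log (8 * v) / (2 * L)| + |Real.log ((n : ℝ) + 1) / L| := by
              linarith [abs_add_le (1 / 2 + β) (Real.log (8 * v) / (2 * L))]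
          _ = _ := by
              rw [abs_div, abs_of_pos (show (0 : ℝ) < 2 * L by positivity), abs_div,
                abs_of_pos hL0, abs_of_nonneg hlogn]
      have h5 : (X + 1 / 4) * (|Real.log (8 * v)| / (2 * L)) ≤ |Real.log (8 * v)| / 8 := by
        rw [mul_div_assoc', div_le_div_iff₀ (by positivity) (by norm_num)]
        nlinarith [abs_nonneg (Real.log (8 * v))]
      have h6 : (X + 1 / 4) * (Real.log ((n : ℝ) + 1) / L) ≤ Real.log ((n : ℝ) + 1) := by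
        rw [mul_div_assoc', div_le_iff₀ hL0]
        nlinarith
      calc (X + 1 / 4) * |τ| ≤ (X + 1 / 4) * (|1 / 2 + β| + |Real.log (8 * v)| / (2 * L) +
            Real.log ((n : ℝ) + 1) / L) := mul_le_mul_of_nonneg_left h4 (by linarith)
        _ = (X + 1 / 4) * |1 / 2 + β| + (X + 1 / 4) * (|Real.log (8 * v)| / (2 * L)) +
            (X + 1 / 4) * (Real.log ((n : ℝ) + 1) / L) := by ring
        _ ≤ _ := by linarith
    calc Real.exp ((X + 1 / 4) * |τ|) ≤ Real.exp ((X + 1 / 4) * |1 / 2 + β| +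
          |Real.log (8 * v)| / 8 + Real.log ((n : ℝ) + 1)) := Real.exp_le_exp.2 h3
      _ = _ := by rw [Real.exp_add, Real.exp_add, Real.exp_log hn1]
  have h8 := rpow8 hv
  have pv : 0 < v ^ (-(3 / 4) : ℝ) := Real.rpow_pos_of_pos hv _
  have e1 : ‖ig L β (P x) n v‖ = Real.exp (-(Real.pi * v)) * v ^ (-(3 / 4) : ℝ) * |P x τ| := by
    unfold ig
    rw [Real.norm_eq_abs, abs_mul, abs_mul, abs_of_pos (Real.exp_pos _), abs_of_pos pv, ← hτ]
  rw [e1]
  calc Real.exp (-(Real.pi * v)) * v ^ (-(3 / 4) : ℝ) * |P x τ|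
      ≤ (Real.exp (-(Real.pi / 2 * v)) * Real.exp (-(aa L β δ * ((n : ℝ) + 1) ^ 2))) *
        v ^ (-(3 / 4) : ℝ) * (M * (Real.exp ((X + 1 / 4) * |1 / 2 + β|) *
        Real.exp (|Real.log (8 * v)| / 8) * ((n : ℝ) + 1))) := by
        refine mul_le_mul (mul_le_mul_of_nonneg_right hexp pv.le) hPb (abs_nonneg _) (by positivity)
    _ = (M * Real.exp ((X + 1 / 4) * |1 / 2 + β|)) * (((n : ℝ) + 1) *
        Real.exp (-(aa L β δ * ((n : ℝ) + 1) ^ 2))) * Real.exp (-(Real.pi / 2 * v)) *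
        (v ^ (-(3 / 4) : ℝ) * Real.exp (|Real.log (8 * v)| / 8)) := by ring
    _ ≤ (M * Real.exp ((X + 1 / 4) * |1 / 2 + β|)) * (((n : ℝ) + 1) *
        Real.exp (-(aa L β δ * ((n : ℝ) + 1) ^ 2))) * Real.exp (-(Real.pi / 2 * v)) *
        (2 * (v ^ (-(5 / 8) : ℝ) + v ^ (-(7 / 8) : ℝ))) :=
        mul_le_mul_of_nonneg_left h8 (by positivity)
    _ = _ := by unfold Hv un; ring

lemma ig_meas (L β : ℝ) {P : ℝ → ℝ} (hP : Measurable P) (n : ℕ) :
    AEStronglyMeasurable (ig L β P n) (volume.restrict (Set.Ioi 0)) := by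
  apply Measurable.aestronglyMeasurable
  unfold ig TV
  refine Measurable.mul (Measurable.mul ?_ ?_) ?_
  · fun_prop
  · fun_prop
  · exact hP.comp (by fun_prop)

lemma KW_eq (L β : ℝ) (P : ℝ → ℝ) (n : ℕ) :
    KW L β P (Real.log ((n : ℝ) + 1) / L) = (∫ v in Set.Ioi (0 : ℝ), ig L β P n v) / g0 := rfl

section fam

variable {δ X M : ℝ} {P : ℝ → ℝ → ℝ}

lemma bd_int (C u : ℝ) : Integrable (fun v => (C * Hv v) * u) (volume.restrict (Set.Ioi 0)) :=
  (Hv_int.const_mul C).mul_const u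

/-- total majorant -/
def UU (X M L β : ℝ) : ℝ :=
  (∫ v in Set.Ioi (0 : ℝ), 2 * M * Real.exp ((X + 1 / 4) * |1 / 2 + β|) * Hv v) / |g0|

lemma ig_int (hP : Fam δ X M P) (hX : 0 ≤ X) (hM : 0 ≤ M) {L : ℝ}
    (hL : 4 * X + 1 ≤ L) (β : ℝ) {x : ℝ} (hx : |x| ≤ X) (n : ℕ) :
    Integrable (ig L β (P x) n) (volume.restrict (Set.Ioi 0)) := by
  refine (bd_int (2 * M * Real.exp ((X + 1 / 4) * |1 / 2 + β|)) (un (aa L β δ) n)).mono'
    (ig_meas L β (hP.meas x) n) ?_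
  filter_upwards [ae_restrict_mem measurableSet_Ioi] with v hv
  exact key hP hX hM hL β hx n hv

lemma KW_bound (hP : Fam δ X M P) (hX : 0 ≤ X) (hM : 0 ≤ M) {L : ℝ}
    (hL : 4 * X + 1 ≤ L) (β : ℝ) {x : ℝ} (hx : |x| ≤ X) (n : ℕ) :
    |KW L β (P x) (Real.log ((n : ℝ) + 1) / L)| ≤ UU X M L β * un (aa L β δ) n := by
  rw [KW_eq, abs_div, UU, div_mul_eq_mul_div]
  refine div_le_div_of_nonneg_right ?_ (abs_nonneg _)
  rw [← integral_mul_const, ← Real.norm_eq_abs]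
  refine MeasureTheory.norm_integral_le_of_norm_le (G := ℝ) (f := ig L β (P x) n) (bd_int _ _) ?_
  filter_upwards [ae_restrict_mem measurableSet_Ioi] with v hv
  exact key hP hX hM hL β hx n hv

lemma KW_cont (hP : Fam δ X M P) (hX : 0 ≤ X) (hM : 0 ≤ M) {L : ℝ}
    (hL : 4 * X + 1 ≤ L) (β : ℝ) (n : ℕ) :
    ContinuousOn (fun x => KW L β (P x) (Real.log ((n : ℝ) + 1) / L)) (Set.Icc 0 X) := by
  simp only [KW_eq]
  refine ContinuousOn.div_const ?_ _
  refine MeasureTheory.continuousOn_of_dominated (G := ℝ) (μ := volume.restrict (Set.Ioi 0))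
    (F := fun x v => ig L β (P x) n v) (bound := fun v =>
    (2 * M * Real.exp ((X + 1 / 4) * |1 / 2 + β|) * Hv v) * un (aa L β δ) n) ?_ ?_ (bd_int _ _) ?_
  · intro x _
    exact ig_meas L β (hP.meas x) n
  · intro x hx
    filter_upwards [ae_restrict_mem measurableSet_Ioi] with v hv
    exact key hP hX hM hL β (by rw [abs_of_nonneg hx.1]; exact hx.2) n hv
  · refine Filter.Eventually.of_forall fun v => ?_
    unfold ig
    exact (continuous_const.mul (hP.cont _)).continuousOn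

/-- the `n`-th term of `Nf` -/
def tm (L β : ℝ) (d : ℕ) (P : ℝ → ℝ) (n : ℕ) : ℝ :=
  js (8 * (d : ℤ)) (n + 1) / Real.sqrt ((n : ℝ) + 1) * KW L β P (Real.log ((n : ℝ) + 1) / L)

lemma Nf_eq (L β : ℝ) (d : ℕ) (P : ℝ → ℝ) : Nf L (KW L β P) d = ∑' n, tm L β d P n := rfl

lemma js_le (k : ℤ) (n : ℕ) : |js k n| ≤ 1 := by
  unfold js
  rcases jacobiSym.trichotomy k n with h | h | h <;> rw [h] <;> simp

lemma coef_le (d n : ℕ) : |js (8 * (d : ℤ)) (n + 1) / Real.sqrt ((n : ℝ) + 1)| ≤ 1 := by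
  rw [abs_div, abs_of_nonneg (Real.sqrt_nonneg _)]
  have h1 : (1 : ℝ) ≤ Real.sqrt ((n : ℝ) + 1) := by
    rw [Real.one_le_sqrt]
    linarith [(Nat.cast_nonneg n : (0 : ℝ) ≤ n)]
  rw [div_le_one (by linarith)]
  exact (js_le _ _).trans h1

lemma tm_bound (hP : Fam δ X M P) (hX : 0 ≤ X) (hM : 0 ≤ M) {L : ℝ}
    (hL : 4 * X + 1 ≤ L) (β : ℝ) (d : ℕ) {x : ℝ} (hx : |x| ≤ X) (n : ℕ) :
    ‖tm L β d (P x) n‖ ≤ UU X M L β * un (aa L β δ) n := by
  unfold tm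
  rw [norm_mul, Real.norm_eq_abs, Real.norm_eq_abs]
  calc _ ≤ 1 * |KW L β (P x) (Real.log ((n : ℝ) + 1) / L)| :=
        mul_le_mul_of_nonneg_right (coef_le d n) (abs_nonneg _)
    _ ≤ _ := by rw [one_mul]; exact KW_bound hP hX hM hL β hx n

lemma Nf_cont (hP : Fam δ X M P) (hX : 0 ≤ X) (hM : 0 ≤ M) {L : ℝ}
    (hL : 4 * X + 1 ≤ L) (β : ℝ) (d : ℕ) :
    ContinuousOn (fun x => Nf L (KW L β (P x)) d) (Set.Icc 0 X) := by
  simp only [Nf_eq]
  refine continuousOn_tsum (u := fun n => UU X M L β * un (aa L β δ) n) (fun n => ?_)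
    ((un_summable (aa_pos L β δ)).mul_left _) fun n x hx => ?_
  · unfold tm
    exact continuousOn_const.mul (KW_cont hP hX hM hL β n)
  · exact tm_bound hP hX hM hL β d (by rw [abs_of_nonneg hx.1]; exact hx.2) n

lemma KW_deriv {P1 : ℝ → ℝ → ℝ} {M1 : ℝ} (hP : Fam δ X M P) (hP1 : Fam δ X M1 P1) (hX : 0 ≤ X)
    (hM : 0 ≤ M) (hM1 : 0 ≤ M1) {L : ℝ} (hL : 4 * X + 1 ≤ L) (β : ℝ) (n : ℕ)
    (hd : ∀ x τ, HasDerivAt (fun z => P z τ) (P1 x τ) x) {x : ℝ} (hx : x ∈ Set.Ioo 0 X) :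
    HasDerivAt (fun z => KW L β (P z) (Real.log ((n : ℝ) + 1) / L))
      (KW L β (P1 x) (Real.log ((n : ℝ) + 1) / L)) x := by
  simp only [KW_eq]
  refine HasDerivAt.div_const ?_ _
  refine (hasDerivAt_integral_of_dominated_loc_of_deriv_le
    (s := Set.Ioo 0 X) (F := fun z v => ig L β (P z) n v) (F' := fun z v => ig L β (P1 z) n v)
    (bound := fun v =>
      (2 * M1 * Real.exp ((X + 1 / 4) * |1 / 2 + β|) * Hv v) * un (aa L β δ) n)
    (isOpen_Ioo.mem_nhds hx) ?_ ?_ ?_ ?_ (bd_int _ _) ?_).2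
  · exact Filter.Eventually.of_forall fun z => ig_meas L β (hP.meas z) n
  · exact ig_int hP hX hM hL β (by rw [abs_of_pos hx.1]; exact hx.2.le) n
  · exact ig_meas L β (hP1.meas x) n
  · filter_upwards [ae_restrict_mem measurableSet_Ioi] with v hv
    intro z hz
    exact key hP1 hX hM1 hL β (by rw [abs_of_pos hz.1]; exact hz.2.le) n hv
  · refine Filter.Eventually.of_forall fun v z _ => ?_
    unfold ig
    exact (hd z _).const_mul _

lemma Nf_deriv {P1 : ℝ → ℝ → ℝ} {M1 : ℝ} (hP : Fam δ X M P) (hP1 : Fam δ X M1 P1) (hX : 0 ≤ X)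
    (hM : 0 ≤ M) (hM1 : 0 ≤ M1) {L : ℝ} (hL : 4 * X + 1 ≤ L) (β : ℝ) (d : ℕ)
    (hd : ∀ x τ, HasDerivAt (fun z => P z τ) (P1 x τ) x) {x : ℝ} (hx : x ∈ Set.Ioo 0 X) :
    HasDerivAt (fun z => Nf L (KW L β (P z)) d) (Nf L (KW L β (P1 x)) d) x := by
  simp only [Nf_eq]
  have hs : ∀ z ∈ Set.Ioo 0 X, |z| ≤ X := fun z hz => by rw [abs_of_pos hz.1]; exact hz.2.le
  refine hasDerivAt_tsum_of_isPreconnected (𝕜 := ℝ) (F := ℝ)
    (g := fun n z => tm L β d (P z) n) (g' := fun n z => tm L β d (P1 z) n)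
    (u := fun n => UU X M1 L β * un (aa L β δ) n) (t := Set.Ioo 0 X) ((un_summable (aa_pos L β δ)).mul_left _) isOpen_Ioo isPreconnected_Ioo
    (fun n z hz => ?_) (fun n z hz => ?_) hx ?_ hx
  · unfold tm
    exact (KW_deriv hP hP1 hX hM hM1 hL β n hd hz).const_mul _
  · exact tm_bound hP1 hX hM1 hL β d (hs z hz) n
  · exact Summable.of_norm_bounded ((un_summable (aa_pos L β δ)).mul_left (UU X M L β))
      fun n => tm_bound hP hX hM hL β d (hs x hx) n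

end fam

lemma cosh_le (t : ℝ) : Real.cosh t ≤ Real.exp |t| := by
  rw [Real.cosh_eq]
  have h1 := Real.exp_le_exp.2 (le_abs_self t)
  have h2 := Real.exp_le_exp.2 (neg_le_abs t)
  linarith

lemma sinh_le (t : ℝ) : |Real.sinh t| ≤ Real.exp |t| := by
  rw [Real.sinh_eq, abs_le]
  have h1 := Real.exp_le_exp.2 (le_abs_self t)
  have h2 := Real.exp_le_exp.2 (neg_le_abs t)
  have h3 := Real.exp_pos t
  have h4 := Real.exp_pos (-t)
  constructor <;> linarith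

lemma fam_Ph {δ : ℝ} {ρ : ℝ → ℝ} (hρ : RH δ ρ) (X : ℝ) (hX : 0 ≤ X) :
    Fam δ X (9 * Real.exp (X / 2)) (Ph ρ) := by
  have hc : Continuous ρ := hρ.smooth.continuous
  refine ⟨fun x => ?_, fun x τ h => ?_, fun x τ hx => ?_, fun τ => ?_⟩
  · unfold Ph
    have : Continuous fun τ => Real.exp (-(x / 2)) * (2 * Real.cosh (x * τ)) * ρ τ := by fun_prop
    exact this.measurable
  · unfold Ph
    rw [hρ.zero τ h, mul_zero]
  · unfold Ph
    have h1 : Real.exp (-(x / 2)) ≤ Real.exp (X / 2) := by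
      rw [Real.exp_le_exp]
      have := (abs_le.1 hx).1
      linarith
    have h2 : Real.cosh (x * τ) ≤ Real.exp (X * |τ|) := by
      refine (cosh_le _).trans (Real.exp_le_exp.2 ?_)
      rw [abs_mul]
      exact mul_le_mul_of_nonneg_right hx (abs_nonneg _)
    have h3 : Real.exp (X * |τ|) ≤ Real.exp ((X + 1 / 4) * |τ|) := by
      rw [Real.exp_le_exp]
      nlinarith [abs_nonneg τ]
    have h4 := Real.cosh_pos (x * τ)
    rw [abs_mul, abs_of_nonneg (hρ.nonneg τ), abs_of_pos (by positivity)]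
    calc Real.exp (-(x / 2)) * (2 * Real.cosh (x * τ)) * ρ τ
        ≤ Real.exp (X / 2) * (2 * Real.exp ((X + 1 / 4) * |τ|)) * 1 := by
          refine mul_le_mul (mul_le_mul h1 (by linarith) (by positivity) (by positivity))
            (hρ.le_one τ) (hρ.nonneg τ) (by positivity)
      _ ≤ _ := by
          have := mul_pos (Real.exp_pos (X / 2)) (Real.exp_pos ((X + 1 / 4) * |τ|))
          nlinarith
  · unfold Ph
    fun_prop

lemma fam_Ph1 {δ : ℝ} {ρ : ℝ → ℝ} (hρ : RH δ ρ) (X : ℝ) (hX : 0 ≤ X) :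
    Fam δ X (9 * Real.exp (X / 2)) (Ph1 ρ) := by
  have hc : Continuous ρ := hρ.smooth.continuous
  refine ⟨fun x => ?_, fun x τ h => ?_, fun x τ hx => ?_, fun τ => ?_⟩
  · unfold Ph1
    have : Continuous fun τ => Real.exp (-(x / 2)) *
      (2 * τ * Real.sinh (x * τ) - Real.cosh (x * τ)) * ρ τ := by fun_prop
    exact this.measurable
  · unfold Ph1
    rw [hρ.zero τ h, mul_zero]
  · unfold Ph1
    have h1 : Real.exp (-(x / 2)) ≤ Real.exp (X / 2) := by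
      rw [Real.exp_le_exp]
      have := (abs_le.1 hx).1
      linarith
    have hxt : |x * τ| ≤ X * |τ| := by
      rw [abs_mul]
      exact mul_le_mul_of_nonneg_right hx (abs_nonneg _)
    have h2 : Real.cosh (x * τ) ≤ Real.exp (X * |τ|) :=
      (cosh_le _).trans (Real.exp_le_exp.2 hxt)
    have h3 : |Real.sinh (x * τ)| ≤ Real.exp (X * |τ|) :=
      (sinh_le _).trans (Real.exp_le_exp.2 hxt)
    have h4 := Real.cosh_pos (x * τ)
    have h5 : |τ| / 4 + 1 ≤ Real.exp (|τ| / 4) := Real.add_one_le_exp _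
    have h6 : Real.exp ((X + 1 / 4) * |τ|) = Real.exp (X * |τ|) * Real.exp (|τ| / 4) := by
      rw [← Real.exp_add]; congr 1; ring
    have h7 : |2 * τ * Real.sinh (x * τ) - Real.cosh (x * τ)| ≤
        9 * Real.exp ((X + 1 / 4) * |τ|) := by
      calc |2 * τ * Real.sinh (x * τ) - Real.cosh (x * τ)|
          ≤ |2 * τ * Real.sinh (x * τ)| + |Real.cosh (x * τ)| := abs_sub _ _
        _ = 2 * |τ| * |Real.sinh (x * τ)| + Real.cosh (x * τ) := by
            rw [abs_mul, abs_mul, abs_of_pos (show (0 : ℝ) < 2 by norm_num), abs_of_pos h4]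
        _ ≤ 2 * |τ| * Real.exp (X * |τ|) + Real.exp (X * |τ|) := by
            have := mul_le_mul_of_nonneg_left h3 (by positivity : (0 : ℝ) ≤ 2 * |τ|)
            linarith
        _ = Real.exp (X * |τ|) * (2 * |τ| + 1) := by ring
        _ ≤ Real.exp (X * |τ|) * (9 * Real.exp (|τ| / 4)) := by
            refine mul_le_mul_of_nonneg_left ?_ (Real.exp_pos _).le
            linarith [abs_nonneg τ]
        _ = _ := by rw [h6]; ring
    rw [abs_mul, abs_mul, abs_of_nonneg (hρ.nonneg τ), abs_of_pos (Real.exp_pos _)]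
    calc Real.exp (-(x / 2)) * |2 * τ * Real.sinh (x * τ) - Real.cosh (x * τ)| * ρ τ
        ≤ Real.exp (X / 2) * (9 * Real.exp ((X + 1 / 4) * |τ|)) * 1 := by
          refine mul_le_mul (mul_le_mul h1 h7 (abs_nonneg _) (by positivity))
            (hρ.le_one τ) (hρ.nonneg τ) (by positivity)
      _ = _ := by ring
  · unfold Ph1
    fun_prop

lemma Ph_deriv (ρ : ℝ → ℝ) (x τ : ℝ) : HasDerivAt (fun z => Ph ρ z τ) (Ph1 ρ x τ) x := by
  unfold Ph Ph1
  have h1 : HasDerivAt (fun z : ℝ => Real.exp (-(z / 2))) (Real.exp (-(x / 2)) * (-(1 / 2))) x := by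
    have : HasDerivAt (fun z : ℝ => -(z / 2)) (-(1 / 2)) x := ((hasDerivAt_id x).div_const 2).neg
    exact this.exp
  have h2 : HasDerivAt (fun z : ℝ => 2 * Real.cosh (z * τ)) (2 * (Real.sinh (x * τ) * τ)) x := by
    have : HasDerivAt (fun z : ℝ => z * τ) τ x := by
      simpa using (hasDerivAt_id x).mul_const τ
    exact this.cosh.const_mul 2
  have h3 := (h1.mul h2).mul_const (ρ τ)
  refine h3.congr_deriv ?_
  ring

/-- the statement of `C6` -/
def C6S : Prop := ∀ (d : ℕ) (_ : Odd d) (_ : Squarefree d) (δ : ℝ) (_ : 0 < δ) (ρ : ℝ → ℝ)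
    (_ : RH δ ρ) (L : ℝ) (_ : 0 < L) (x : ℝ) (_ : 0 ≤ x),
    Nf L (KW L (be L d) (Ph ρ x)) d = Kd L d x * LLd d (1 / 2 + x / L)

/-- the statement of `W3` -/
def W3S : Prop := ∀ (ζ χ : ℝ → ℝ) (_ : ST (-1 / 2) (-1 / 4) ζ) (θ' θ : ℝ) (_ : 0 < θ') (_ : θ' < θ)
    (_ : θ < 1 / 2) (_ : ST θ' θ χ),
    (∀ x, Wt θ (qf ζ χ x) ∧ Wt θ (qf1 ζ χ x)) ∧
    (∀ x t, HasDerivAt (fun z => qf ζ χ z t) (qf1 ζ χ x t) x) ∧
    (∀ (k : ℕ) (X0 : ℝ), ∃ B : ℝ, ∀ x, |x| ≤ X0 → Bd k (qf ζ χ x) B ∧ Bd k (qf1 ζ χ x) B) ∧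
    Continuous (fun p : ℝ × ℝ => qf ζ χ p.1 p.2) ∧ Continuous (fun p : ℝ × ℝ => qf1 ζ χ p.1 p.2)

/-- `Md` is a finite sum -/
lemma Md_eq {θ L : ℝ} (hL : 0 < L) {Q : ℝ → ℝ} (hQ : Wt θ Q) (d : ℕ) :
    Md 2 L Q d = ∑ n ∈ range (⌊Real.exp (θ * L)⌋₊ + 1), if Nat.Coprime n 2 then
      ((ArithmeticFunction.moebius n : ℤ) : ℝ) * js (8 * (d : ℤ)) n / Real.sqrt n *
      Q (Real.log n / L) else 0 := by
  unfold Md
  apply tsum_eq_sum
  intro n hn
  split_ifs with hc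
  · have hn0 : n ≠ 0 := by
      rintro rfl
      simp at hc
    have hnp : (0 : ℝ) < n := by exact_mod_cast Nat.pos_of_ne_zero hn0
    have h0 : Q (Real.log n / L) = 0 := by
      by_contra h
      have h1 := (hQ.supp _ h).2
      rw [div_le_iff₀ hL] at h1
      have h2 : (n : ℝ) ≤ Real.exp (θ * L) := by
        rw [← Real.exp_log hnp]
        exact Real.exp_le_exp.2 h1
      have h3 : n ≤ ⌊Real.exp (θ * L)⌋₊ := Nat.le_floor h2
      exact hn (by rw [Finset.mem_range]; omega)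
    rw [h0, mul_zero]
  · rfl

theorem MR5_of (hC6 : C6S) (hW3 : W3S) (δ : ℝ) (hδ : 0 < δ) (hδ1 : δ < 1 / 8) (ρ ζ χ : ℝ → ℝ)
    (hρ : RH δ ρ)
    (hζ : ST (-1 / 2) (-1 / 4) ζ) (θ' θ : ℝ) (hθ' : 0 < θ') (hθθ : θ' < θ) (hθ : θ < 1 / 2)
    (hχ : ST θ' θ χ) (c c' : ℝ → ℝ) (hc : ∀ x, HasDerivAt c (c' x) x) (hc' : Continuous c')
    (X0 : ℝ) (hX0 : 0 ≤ X0) (L : ℝ) (hL : 4 * X0 + 1 ≤ L) (d : ℕ) (hd : Odd d) (hs : Squarefree d)
    (hbad : bad1 L X0 d) :
    1 ≤ Gt L ρ ζ χ c d X0 ^ 2 +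
      ∫ x in (0 : ℝ)..X0, 2 * |Gt L ρ ζ χ c d x| * |Gt1 L ρ ζ χ c c' d x| := by
  have hL0 : 0 < L := by linarith
  obtain ⟨hw1, hw2, -, hw4, hw5⟩ := hW3 ζ χ hζ θ' θ hθ' hθθ hθ hχ
  have hcc : Continuous c := continuous_iff_continuousAt.2 fun x => (hc x).continuousAt
  have hF := fam_Ph hρ X0 hX0
  have hF1 := fam_Ph1 hρ X0 hX0
  have hM : 0 ≤ 9 * Real.exp (X0 / 2) := by positivity
  set β := be L d with hβ
  have hfc := Nf_cont hF hX0 hM hL β d
  have hf1c := Nf_cont hF1 hX0 hM hL β d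
  have hfd : ∀ x ∈ Set.Ioo 0 X0, HasDerivAt (fun z => Nf L (KW L β (Ph ρ z)) d)
      (Nf L (KW L β (Ph1 ρ x)) d) x := fun x hx =>
    Nf_deriv hF hF1 hX0 hM hM hL β d (fun x τ => Ph_deriv ρ x τ) hx
  -- the mollifier
  have hmd : ∀ x, HasDerivAt (fun z => Md 2 L (qf ζ χ z) d) (Md 2 L (qf1 ζ χ x) d) x := by
    intro x
    rw [Md_eq hL0 (hw1 x).2 d]
    have e : (fun z => Md 2 L (qf ζ χ z) d) = fun z =>
        ∑ n ∈ range (⌊Real.exp (θ * L)⌋₊ + 1), if Nat.Coprime n 2 then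
        ((ArithmeticFunction.moebius n : ℤ) : ℝ) * js (8 * (d : ℤ)) n / Real.sqrt n *
        qf ζ χ z (Real.log n / L) else 0 := by
      funext z
      exact Md_eq hL0 (hw1 z).1 d
    rw [e]
    apply HasDerivAt.fun_sum
    intro n _
    split_ifs
    · exact (hw2 x _).const_mul _
    · exact hasDerivAt_const _ _
  have hmc : Continuous (fun z => Md 2 L (qf ζ χ z) d) :=
    continuous_iff_continuousAt.2 fun x => (hmd x).continuousAt
  have hm1c : Continuous (fun z => Md 2 L (qf1 ζ χ z) d) := by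
    have e : (fun z => Md 2 L (qf1 ζ χ z) d) = fun z =>
        ∑ n ∈ range (⌊Real.exp (θ * L)⌋₊ + 1), if Nat.Coprime n 2 then
        ((ArithmeticFunction.moebius n : ℤ) : ℝ) * js (8 * (d : ℤ)) n / Real.sqrt n *
        qf1 ζ χ z (Real.log n / L) else 0 := by
      funext z
      exact Md_eq hL0 (hw1 z).2 d
    rw [e]
    refine continuous_finsetSum _ fun n _ => ?_
    split_ifs
    · refine continuous_const.mul ?_
      exact hw5.comp (continuous_id.prodMk continuous_const)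
    · exact continuous_const
  have hGc : ContinuousOn (fun x => Gt L ρ ζ χ c d x) (Set.Icc 0 X0) := by
    unfold Gt
    exact continuousOn_const.sub (hcc.continuousOn.mul (hfc.mul hmc.continuousOn))
  have hG1c : ContinuousOn (fun x => Gt1 L ρ ζ χ c c' d x) (Set.Icc 0 X0) := by
    unfold Gt1
    exact ((hc'.continuousOn.mul (hfc.mul hmc.continuousOn)).add (hcc.continuousOn.mul
      ((hf1c.mul hmc.continuousOn).add (hfc.mul hm1c.continuousOn)))).neg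
  have hGd : ∀ x ∈ Set.Ioo 0 X0, HasDerivAt (fun z => Gt L ρ ζ χ c d z)
      (Gt1 L ρ ζ χ c c' d x) x := by
    intro x hx
    unfold Gt Gt1
    have h1 := ((hc x).mul ((hfd x hx).mul (hmd x))).const_sub 1
    refine h1.congr_deriv ?_
    simp only [Pi.mul_apply]
    ring
  -- the zero
  obtain ⟨x0, h0, h1, h2⟩ := hbad
  have hG0 : Gt L ρ ζ χ c d x0 = 1 := by
    unfold Gt
    rw [hC6 d hd hs δ hδ ρ hρ L hL0 x0 h0, h2]
    ring
  have hsub : Set.Icc x0 X0 ⊆ Set.Icc 0 X0 := Set.Icc_subset_Icc_left h0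
  have hcont2 : ContinuousOn (fun x => 2 * |Gt L ρ ζ χ c d x| * |Gt1 L ρ ζ χ c c' d x|)
      (Set.Icc 0 X0) := (continuousOn_const.mul hGc.abs).mul hG1c.abs
  have hcont1 : ContinuousOn (fun x => 2 * Gt L ρ ζ χ c d x * Gt1 L ρ ζ χ c c' d x)
      (Set.Icc 0 X0) := (continuousOn_const.mul hGc).mul hG1c
  have hftc : ∫ x in x0..X0, 2 * Gt L ρ ζ χ c d x * Gt1 L ρ ζ χ c c' d x =
      Gt L ρ ζ χ c d X0 ^ 2 - Gt L ρ ζ χ c d x0 ^ 2 := by
    apply intervalIntegral.integral_eq_sub_of_hasDerivAt_of_le h1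
      ((hGc.mono hsub).pow 2)
    · intro x hx
      have h3 := (hGd x ⟨lt_of_le_of_lt h0 hx.1, hx.2⟩).pow 2
      refine h3.congr_deriv ?_
      norm_num
    · apply ContinuousOn.intervalIntegrable
      rw [Set.uIcc_of_le h1]
      exact hcont1.mono hsub
  have hi2 : IntervalIntegrable (fun x => 2 * |Gt L ρ ζ χ c d x| * |Gt1 L ρ ζ χ c c' d x|)
      volume 0 X0 := by
    apply ContinuousOn.intervalIntegrable
    rw [Set.uIcc_of_le hX0]
    exact hcont2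
  have hi2' : IntervalIntegrable (fun x => 2 * |Gt L ρ ζ χ c d x| * |Gt1 L ρ ζ χ c c' d x|)
      volume x0 X0 := by
    apply ContinuousOn.intervalIntegrable
    rw [Set.uIcc_of_le h1]
    exact hcont2.mono hsub
  have hi2'' : IntervalIntegrable (fun x => 2 * |Gt L ρ ζ χ c d x| * |Gt1 L ρ ζ χ c c' d x|)
      volume 0 x0 := by
    apply ContinuousOn.intervalIntegrable
    rw [Set.uIcc_of_le h0]
    exact hcont2.mono (Set.Icc_subset_Icc_right h1)
  have hle : -(∫ x in x0..X0, 2 * Gt L ρ ζ χ c d x * Gt1 L ρ ζ χ c c' d x) ≤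
      ∫ x in x0..X0, 2 * |Gt L ρ ζ χ c d x| * |Gt1 L ρ ζ χ c c' d x| := by
    rw [← intervalIntegral.integral_neg]
    apply intervalIntegral.integral_mono_on h1 _ hi2'
    · intro x _
      calc -(2 * Gt L ρ ζ χ c d x * Gt1 L ρ ζ χ c c' d x)
          ≤ |2 * Gt L ρ ζ χ c d x * Gt1 L ρ ζ χ c c' d x| := neg_le_abs _
        _ = _ := by rw [abs_mul, abs_mul, abs_of_pos (show (0 : ℝ) < 2 by norm_num)]
    · apply ContinuousOn.intervalIntegrable
      rw [Set.uIcc_of_le h1]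
      exact (hcont1.mono hsub).neg
  have hadd := intervalIntegral.integral_add_adjacent_intervals hi2'' hi2'
  have hnn : 0 ≤ ∫ x in (0 : ℝ)..x0, 2 * |Gt L ρ ζ χ c d x| * |Gt1 L ρ ζ χ c c' d x| :=
    intervalIntegral.integral_nonneg h0 fun x _ => by positivity
  rw [hG0] at hftc
  linarith

end

end Pool.Agent.H208R2.RZ2
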